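import Pool.Agent.Helper75.SS.Main

/-!
# MP_09799c_ag: factors with full symplectic monodromy split off

`K` is algebraically closed of characteristic zero, `V₁` is a symplectic space, `V₂` any
finite-dimensional space, and `g` is a Lie algebra acting on `V₁` and on `V₂`. Suppose that `g`
acts on `V₁` through similitudes and induces all of the symplectic Lie algebra there, that `g` is
generated by idempotents (which act nontrivially on `V₁`), that `V₂` is semisimple, and that there
is no nonzero `g`-equivariant map `V₁ → V₂`. Then `g` contains the symplectic Lie algebra of `V₁`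
acting by zero on `V₂`.

In the application `V₁` and `V₂` are the `ℓ`-adic representations of two abelian varieties `A₁`
and `B` without common isogeny factor, and the idempotents are the weak Hodge cocharacters. The
abelian variety `B` is arbitrary.
-/

namespace Pool.Agent.Results.MP_09799c_ag.SymplecticSplitting

open Pool.Agent.Helper75.SS

theorem result {K V₁ V₂ : Type*} [Field K] [IsAlgClosed K] [CharZero K]
    [AddCommGroup V₁] [Module K V₁] [FiniteDimensional K V₁]
    [AddCommGroup V₂] [Module K V₂] [FiniteDimensional K V₂]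
    -- a symplectic form on `V₁`
    (ψ : LinearMap.BilinForm K V₁) (hnd : ψ.Nondegenerate) (halt : ∀ x, ψ x x = 0)
    -- a Lie algebra `g` acting on `V₁` and on `V₂`
    (g : Submodule K (Module.End K V₁ × Module.End K V₂))
    (hLie : ∀ X ∈ g, ∀ Y ∈ g, X * Y - Y * X ∈ g)
    -- which acts on `V₁` through similitudes, and induces all of the symplectic Lie algebra
    (hgsp : ∀ X ∈ g, ∃ c : K, ∀ x y, ψ (X.1 x) y + ψ x (X.1 y) = c * ψ x y)
    (hsp : ∀ Z : Module.End K V₁, (∀ x y, ψ (Z x) y + ψ x (Z y) = 0) → ∃ X ∈ g, X.1 = Z)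
    -- generated by its idempotents which are nontrivial on `V₁`
    (hgen : ∀ g' : Submodule K (Module.End K V₁ × Module.End K V₂),
      (∀ X ∈ g', ∀ Y ∈ g', X * Y - Y * X ∈ g') →
      (∀ e ∈ g, e * e = e → e.1 ≠ 0 → e.1 ≠ 1 → e ∈ g') → g ≤ g')
    -- `V₂` is semisimple
    (hss : ∀ U : Submodule K V₂, (∀ X ∈ g, ∀ u ∈ U, X.2 u ∈ U) →
      ∃ U' : Submodule K V₂, (∀ X ∈ g, ∀ u ∈ U', X.2 u ∈ U') ∧ IsCompl U U')
    -- and there is no nonzero equivariant map from `V₁` to `V₂`
    (hhom : ∀ f : V₁ →ₗ[K] V₂, (∀ X ∈ g, ∀ v, X.2 (f v) = f (X.1 v)) → f = 0) :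
    ∀ Z : Module.End K V₁, (∀ x y, ψ (Z x) y + ψ x (Z y) = 0) →
      (Z, (0 : Module.End K V₂)) ∈ g := by
  have H : Hyp ψ g :=
    { nd := hnd
      alt := halt
      closed := hLie
      gsp := hgsp
      sur := fun Z hZ => hsp Z (fun x y => by rw [hZ x y, neg_add_cancel])
      gen := hgen
      ss := hss
      hom := hhom }
  intro Z hZ
  exact H.splitting (fun x y => eq_neg_of_add_eq_zero_left (hZ x y))

end Pool.Agent.Results.MP_09799c_ag.SymplecticSplitting
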